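import Mathlib
import Pool.Agent.TH516.CC.Lower
import Pool.Agent.TH516.CC.Upper

set_option autoImplicit false

/-!
# The constant in Nikiforov's question on consecutive cycle lengths

The largest admissible constant is `(3 - √5) / 2`.

The lower bound: apply the regularity lemma to a graph `G` on `n` vertices with spectral radius
larger than `√⌊n²/4⌋`, and take the component of the reduced graph that carries the leading
eigenvector of the cleaned graph. If that component has a triangle, a Hall type argument together
with the quadratic form inequality for the weighted three part pattern shows that the reduced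
component has an injective neighbour map on at least a `(3 - √5) / 2 - ε / 2` proportion of the
clusters, and an embedding argument gives cycles of all lengths. If it has no triangle, `G` is
close to a balanced complete bipartite graph and has an edge inside one of the two parts, and the
cycles are found directly.

The upper bound: a clique on `s` vertices joined to an independent set has no cycle with more than
`2 s` vertices.
-/

namespace Pool.Agent.Results.MP_bc5e1d_co.ConsecutiveCycles

open Classical in
/-- The spectral radius of a graph: the largest eigenvalue of its adjacency matrix. -/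
noncomputable def specRadius {V : Type} [Fintype V] (G : SimpleGraph V) : ℝ :=
  sSup {μ : ℝ | Module.End.HasEigenvalue (Matrix.toLin' (G.adjMatrix ℝ)) μ}

/-- `C > 0` is admissible: for every `ε` with `0 < ε < C` there is `n₀` such that for every
`n ≥ n₀`, every graph of order `n` with spectral radius larger than `√⌊n²/4⌋` contains a cycle of
length `ℓ` for every integer `ℓ` with `3 ≤ ℓ ≤ (C - ε) n`. -/
def Admissible (C : ℝ) : Prop :=
  0 < C ∧ ∀ ε : ℝ, 0 < ε → ε < C → ∃ n₀ : ℕ, ∀ n : ℕ, n₀ ≤ n → ∀ G : SimpleGraph (Fin n),
    Real.sqrt ((n ^ 2 / 4 : ℕ) : ℝ) < specRadius G → ∀ ℓ : ℕ, 3 ≤ ℓ →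
      (ℓ : ℝ) ≤ (C - ε) * n → ∃ (v : Fin n) (p : G.Walk v v), p.IsCycle ∧ p.length = ℓ

theorem specRadius_same {V : Type} [Fintype V] (G : SimpleGraph V) :
    specRadius G = Pool.Agent.TH516.CC.specRadius G := rfl

/-- The largest admissible constant is `(3 - √5) / 2`. -/
theorem result : IsGreatest {C : ℝ | Admissible C} ((3 - Real.sqrt 5) / 2) := by
  obtain ⟨hc1, hc2, hc3⟩ := Pool.Agent.TH516.CC.c0_facts
  constructor
  · refine ⟨by linarith, fun ε hε0 hεc => ?_⟩
    obtain ⟨N, hN⟩ := Pool.Agent.TH516.CC.main_lower hε0 hεc
    refine ⟨N, fun n hn G hG ℓ h3 hℓ => ?_⟩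
    have h1 := hN (Fin n) G (by rw [Fintype.card_fin]; exact hn)
      (by rw [Fintype.card_fin, ← specRadius_same]; exact hG) ℓ h3
      (by rw [Fintype.card_fin]; exact hℓ)
    exact h1.exists_cycle h3
  · rintro C ⟨hC0, hC⟩
    by_contra hcon
    push Not at hcon
    obtain ⟨n₀, hn₀⟩ := hC ((C - (3 - Real.sqrt 5) / 2) / 2) (by linarith) (by linarith)
    obtain ⟨n, s, hn, hs0, hsn, h1, h2⟩ := Pool.Agent.TH516.CC.upper_choice hc3 hc2 hc1
      (γ := C - (C - (3 - Real.sqrt 5) / 2) / 2) (by linarith) n₀
    have h3 := Pool.Agent.TH516.CC.GS_sqrt (Pool.Agent.TH516.CC.GS_spec hs0 hsn h1)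
    obtain ⟨v, p, hp, hpl⟩ := hn₀ n hn (Pool.Agent.TH516.CC.GS n s) h3 (2 * s + 1) (by omega) h2
    have h4 := Pool.Agent.TH516.CC.GS_cycle hp
    omega

end Pool.Agent.Results.MP_bc5e1d_co.ConsecutiveCycles
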